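import Pool.Agent.Lib.MP_926cc3_nt.TH.All
import Pool.Agent.Lib.MP_926cc3_nt.TH.UPH

/-!
# MP_926cc3_nt, the threshold at every scale: the local lower bound

For every `η` there is `δ > 0` such that almost surely `log p(g) > (1 - η) √g` for all large `g`
with `w (exp ((1 - η) √g)) ≤ g ^ δ`.
-/

set_option autoImplicit false

open Filter Topology MeasureTheory ProbabilityTheory

namespace Pool.Agent.Lib.MP_926cc3_nt.T2

open Pool.Agent.Lib.MP_926cc3_nt.RS Pool.Agent.Lib.MP_926cc3_nt.TH

universe u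

namespace LowM

/-- the probability that no element of `J` is chosen -/
theorem empty_prob {Ω : Type u} [MeasurableSpace Ω] {μ : Measure Ω} [IsProbabilityMeasure μ]
    {B : ℕ → Set Ω} (hB : ∀ n, MeasurableSet (B n)) (hI : iIndepSet B μ) (J : Finset ℕ)
    (d : ℕ → ℝ) (hd : ∀ n ∈ J, μ.real (B n) = d n) :
    μ.real (EMPM.Ev B ∅ J) ≤ Real.exp (-∑ n ∈ J, d n) := by
  rw [EMPM.Ev_real hB hI _ ∅ (Finset.disjoint_empty_left _), Finset.prod_empty, one_mul]
  calc ∏ n ∈ J, (1 - μ.real (B n)) ≤ ∏ n ∈ J, Real.exp (-d n) := by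
        apply Finset.prod_le_prod
        · intro n _
          rw [sub_nonneg]
          exact measureReal_le_one
        · intro n hn
          rw [hd n hn]
          have := Real.add_one_le_exp (-d n)
          linarith
    _ = Real.exp (-∑ n ∈ J, d n) := by rw [← Real.exp_sum, Finset.sum_neg_distrib]

/-- the window sum, without the first `N0` numbers -/
theorem window_sum {C : ℝ} (hC : 0 < C) (hint : ∀ (b w a e : ℕ), 2 ≤ w → a ≤ e →
    |∑ n ∈ Finset.Ioc a e, Gra.r w n - ((e : ℝ) - a) * V w| ≤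
      C * Real.exp (-(b : ℝ)) * ((e : ℝ) - a) * V w + C * (w : ℝ) ^ (8 * b + 17))
    {w : ℕ → ℕ} (hm : Monotone w) (h2 : ∀ n, 2 ≤ w n) (b a e N0 : ℕ) (hae : a ≤ e) :
    (1 - C * Real.exp (-(b : ℝ))) * ((e : ℝ) - a) - 2 * C * (w e : ℝ) ^ (8 * b + 19) -
        ∑ n ∈ Finset.range N0, (w n : ℝ) ≤
      ∑ n ∈ (Finset.Ioc a e).filter (fun n => N0 ≤ n), Gra.r (w n) n / V (w n) := by
  classical
  have h1 := Gra.window hC hint w hm h2 b a e hae
  rw [Finset.sum_sub_distrib, Finset.sum_const, Nat.card_Ioc, nsmul_eq_mul, mul_one,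
    Nat.cast_sub hae] at h1
  have h3 := (abs_le.1 h1).1
  have h4 := Finset.sum_filter_add_sum_filter_not (Finset.Ioc a e) (fun n => N0 ≤ n)
    (fun n => Gra.r (w n) n / V (w n))
  have h5 : ∑ n ∈ (Finset.Ioc a e).filter (fun n => ¬ N0 ≤ n), Gra.r (w n) n / V (w n) ≤
      ∑ n ∈ Finset.range N0, (w n : ℝ) := by
    calc ∑ n ∈ (Finset.Ioc a e).filter (fun n => ¬ N0 ≤ n), Gra.r (w n) n / V (w n)
        ≤ ∑ n ∈ (Finset.Ioc a e).filter (fun n => ¬ N0 ≤ n), (w n : ℝ) := by
          apply Finset.sum_le_sum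
          intro n _
          have hV := Gra.V_pos (w n) (h2 n)
          have h6 := Gra.V_inv_le (w n) (h2 n)
          calc Gra.r (w n) n / V (w n) ≤ 1 / V (w n) :=
                div_le_div_of_nonneg_right (Gra.r_le_one _ _) hV.le
            _ = (V (w n))⁻¹ := one_div _
            _ ≤ w n := h6
      _ ≤ ∑ n ∈ Finset.range N0, (w n : ℝ) := by
          apply Finset.sum_le_sum_of_subset_of_nonneg
          · intro n hn
            rw [Finset.mem_filter] at hn
            rw [Finset.mem_range]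
            omega
          · intro n _ _
            exact Nat.cast_nonneg _
  linarith

end LowM

open LowM in
/-- the local lower bound -/
theorem low {η : ℝ} (hη : 0 < η) (hη1 : η < 1) : ∃ δ : ℝ, 0 < δ ∧
    ∀ w : ℕ → ℕ, Monotone w → (∀ n, 2 ≤ w n) →
    ∀ (Ω : Type u) (_ : MeasurableSpace Ω) (μ : Measure Ω) (_ : IsProbabilityMeasure μ)
      (B : ℕ → Set Ω), (∀ n, MeasurableSet (B n)) → iIndepSet B μ →
      (∀ᶠ n in atTop, μ.real (B n) = cgDens w n) →
      ∀ᵐ ω ∂μ, ∀ᶠ g : ℕ in atTop,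
        (w ⌊Real.exp ((1 - η) * Real.sqrt g)⌋₊ : ℝ) ≤ (g : ℝ) ^ δ →
        ∀ p ∈ {p : ℕ | p ∈ evSet B ω ∧ ∀ i : ℕ, 1 ≤ i → i ≤ g →
          (1 < p - i ∧ p - i ∉ evSet B ω)}, (1 - η) * Real.sqrt g < Real.log p := by
  classical
  obtain ⟨C, hC, hint⟩ := Gra.interval
  obtain ⟨b, hb⟩ : ∃ b : ℕ, C * Real.exp (-(b : ℝ)) < η / 16 := by
    have h1 : Tendsto (fun b : ℕ => C * Real.exp (-(b : ℝ))) atTop (𝓝 (C * 0)) :=
      (Real.tendsto_exp_neg_atTop_nhds_zero.comp tendsto_natCast_atTop_atTop).const_mul C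
    rw [mul_zero] at h1
    exact (h1.eventually (gt_mem_nhds (show (0 : ℝ) < η / 16 by positivity))).exists
  set K : ℕ := 8 * b + 19 with hK
  have hK0 : (0 : ℝ) < K := by
    rw [hK]; push_cast; positivity
  refine ⟨1 / (2 * (K : ℝ)), by positivity, ?_⟩
  intro w hm h2 Ω m0 μ hμ B hB hI hdB
  obtain ⟨N1, hN1⟩ := eventually_atTop.1 hdB
  set N0 : ℕ := max N1 3 with hN0
  set A0 : ℝ := ∑ n ∈ Finset.range N0, (w n : ℝ) with hA0
  have h1η : 0 < 1 - η := by linarith
  -- the exponent
  set κ : ℝ := (1 - η / 4) / (1 - η) - (1 - η) with hκ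
  have hκ0 : 0 < κ := by
    rw [hκ, sub_pos, lt_div_iff₀ h1η]
    nlinarith
  set W : ℕ → ℕ → Finset ℕ := fun g p =>
    (Finset.Ioc (p - 1 - g) (p - 1)).filter (fun n => N0 ≤ n) with hW
  set F : ℕ → Set Ω := fun g =>
    if (w ⌊Real.exp ((1 - η) * Real.sqrt g)⌋₊ : ℝ) ≤ (g : ℝ) ^ (1 / (2 * (K : ℝ))) then
      ⋃ p ∈ Finset.Ioc (g + 1) ⌊Real.exp ((1 - η) * Real.sqrt g)⌋₊, EMPM.Ev B ∅ (W g p)
    else ∅ with hF
  have hroot : Tendsto (fun x : ℕ => Real.sqrt (x : ℝ)) atTop atTop :=
    Real.tendsto_sqrt_atTop.comp tendsto_natCast_atTop_atTop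
  have hFm : ∀ᶠ g : ℕ in atTop, μ (F g) ≤ ENNReal.ofReal ((g : ℝ) ^ (-(2 : ℝ))) := by
    have hq : ∀ᶠ g : ℕ in atTop, (g : ℝ) ^ (1 / 4 : ℝ) ≤ κ * Real.sqrt g := by
      have h4 : Tendsto (fun g : ℕ => (g : ℝ) ^ (1 / 4 : ℝ)) atTop atTop :=
        (tendsto_rpow_atTop (by norm_num)).comp tendsto_natCast_atTop_atTop
      filter_upwards [h4.eventually_ge_atTop (1 / κ), eventually_ge_atTop 1] with g hg hg1
      have hg0 : (0 : ℝ) < g := by exact_mod_cast hg1
      have e : Real.sqrt (g : ℝ) = (g : ℝ) ^ (1 / 4 : ℝ) * (g : ℝ) ^ (1 / 4 : ℝ) := by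
        rw [← Real.rpow_add hg0, Real.sqrt_eq_rpow]; norm_num
      rw [div_le_iff₀ hκ0] at hg
      have h5 : 0 < (g : ℝ) ^ (1 / 4 : ℝ) := by positivity
      rw [e]
      nlinarith
    filter_upwards [hq, PRBM.asym (show (0 : ℝ) < 1 / 4 by norm_num),
      hroot.eventually_ge_atTop (16 * C / η + 1), hroot.eventually_ge_atTop (16 * A0 / η + 1),
      eventually_ge_atTop 1] with g hg hg2 hg3 hg4 hg1
    have hg1' : (1 : ℝ) ≤ g := by exact_mod_cast hg1
    have hg0 : (0 : ℝ) < g := by linarith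
    set s : ℝ := Real.sqrt g with hs
    have hss : s * s = g := Real.mul_self_sqrt hg0.le
    have hs0 : 0 < s := Real.sqrt_pos.2 hg0
    have hs1 : 1 ≤ s := by
      rw [hs]; exact Real.one_le_sqrt.2 hg1'
    by_cases hc : (w ⌊Real.exp ((1 - η) * s)⌋₊ : ℝ) ≤ (g : ℝ) ^ (1 / (2 * (K : ℝ)))
    · have hFg : F g = ⋃ p ∈ Finset.Ioc (g + 1) ⌊Real.exp ((1 - η) * s)⌋₊,
          EMPM.Ev B ∅ (W g p) := by
        rw [hF]; dsimp only; rw [if_pos hc]
      have hone : ∀ p ∈ Finset.Ioc (g + 1) ⌊Real.exp ((1 - η) * s)⌋₊,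
          μ (EMPM.Ev B ∅ (W g p)) ≤
            ENNReal.ofReal (Real.exp (-((1 - η / 4) / (1 - η) * s))) := by
        intro p hp
        rw [Finset.mem_Ioc] at hp
        have hpx : (p : ℝ) ≤ Real.exp ((1 - η) * s) :=
          (Nat.le_floor_iff (Real.exp_pos _).le).1 hp.2
        have hp0 : (0 : ℝ) < p := by
          have : 0 < p := by omega
          exact_mod_cast this
        have hlp : Real.log p ≤ (1 - η) * s := by
          rw [Real.log_le_iff_le_exp hp0]
          exact hpx
        have h3 := window_sum hC hint hm h2 b (p - 1 - g) (p - 1) N0 (by omega)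
        have e1 : ((p - 1 : ℕ) : ℝ) - ((p - 1 - g : ℕ) : ℝ) = g := by
          have : p - 1 = (p - 1 - g) + g := by omega
          have h4 : ((p - 1 : ℕ) : ℝ) = ((p - 1 - g : ℕ) : ℝ) + g := by exact_mod_cast this
          linarith
        rw [e1] at h3
        have h4 : (w (p - 1) : ℝ) ^ K ≤ s := by
          have h5 : (w (p - 1) : ℝ) ≤ (g : ℝ) ^ (1 / (2 * (K : ℝ))) := by
            refine le_trans ?_ hc
            exact_mod_cast hm (by omega)
          calc (w (p - 1) : ℝ) ^ K ≤ ((g : ℝ) ^ (1 / (2 * (K : ℝ)))) ^ K :=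
                pow_le_pow_left₀ (Nat.cast_nonneg _) h5 K
            _ = s := by
                rw [← Real.rpow_natCast, ← Real.rpow_mul hg0.le, hs, Real.sqrt_eq_rpow]
                congr 1
                field_simp
        have h5 : (1 - η / 4) * g ≤ ∑ n ∈ W g p, Gra.r (w n) n / V (w n) := by
          refine le_trans ?_ h3
          have h6 : 2 * C * (w (p - 1) : ℝ) ^ K ≤ η / 16 * 2 * g := by
            have h7 : 16 * C / η ≤ s := by linarith
            rw [div_le_iff₀ hη] at h7
            have h8 : 2 * C * (w (p - 1) : ℝ) ^ K ≤ 2 * C * s :=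
              mul_le_mul_of_nonneg_left h4 (by positivity)
            have h9 : 2 * C * s ≤ (s * η / 8) * s := by
              apply mul_le_mul_of_nonneg_right _ hs0.le
              linarith
            have h10 : (s * η / 8) * s = η / 8 * g := by rw [← hss]; ring
            linarith
          have h7 : A0 ≤ η / 16 * g := by
            have h8 : 16 * A0 / η ≤ s := by linarith
            rw [div_le_iff₀ hη] at h8
            have h9 : s ≤ g := by rw [← hss]; nlinarith
            have h10 : s * η ≤ g * η := mul_le_mul_of_nonneg_right h9 hη.le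
            linarith
          have h8 : (1 - η / 16) * g ≤ (1 - C * Real.exp (-(b : ℝ))) * g :=
            mul_le_mul_of_nonneg_right (by linarith) hg0.le
          have h9 : (8 * b + 19) = K := rfl
          rw [h9]
          linarith
        have h6 : (1 - η / 4) / (1 - η) * s ≤ ∑ n ∈ W g p, cgDens w n := by
          calc (1 - η / 4) / (1 - η) * s = ((1 - η / 4) * g) / ((1 - η) * s) := by
                rw [← hss]; field_simp
            _ ≤ (∑ n ∈ W g p, Gra.r (w n) n / V (w n)) / ((1 - η) * s) :=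
                div_le_div_of_nonneg_right h5 (by positivity)
            _ = ∑ n ∈ W g p, Gra.r (w n) n / V (w n) / ((1 - η) * s) := Finset.sum_div _ _ _
            _ ≤ ∑ n ∈ W g p, cgDens w n := by
                apply Finset.sum_le_sum
                intro n hn
                rw [hW] at hn
                dsimp only at hn
                rw [Finset.mem_filter, Finset.mem_Ioc] at hn
                have hn3 : 3 ≤ n := le_trans (le_max_right _ _) hn.2
                have hn3' : (3 : ℝ) ≤ n := by exact_mod_cast hn3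
                rw [Gra.cgDens_eq]
                apply div_le_div_of_nonneg_left
                · exact div_nonneg (Gra.r_nonneg _ _) (Gra.V_pos _ (h2 n)).le
                · exact Real.log_pos (by linarith)
                · refine le_trans (Real.log_le_log (by linarith) ?_) hlp
                  exact_mod_cast (by omega : n ≤ p)
        have h7 := empty_prob hB hI (W g p) (fun n => cgDens w n) (by
          intro n hn
          rw [hW] at hn
          dsimp only at hn
          rw [Finset.mem_filter] at hn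
          exact hN1 n (le_trans (le_max_left _ _) hn.2))
        rw [← ENNReal.ofReal_toReal (measure_ne_top μ _)]
        apply ENNReal.ofReal_le_ofReal
        refine h7.trans (Real.exp_le_exp.2 (by linarith))
      rw [hFg]
      refine (measure_biUnion_finset_le _ _).trans ?_
      refine (Finset.sum_le_sum hone).trans ?_
      rw [Finset.sum_const, nsmul_eq_mul, ← ENNReal.ofReal_natCast,
        ← ENNReal.ofReal_mul (Nat.cast_nonneg _)]
      apply ENNReal.ofReal_le_ofReal
      refine le_trans ?_ hg2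
      have h8 : ((Finset.Ioc (g + 1) ⌊Real.exp ((1 - η) * s)⌋₊).card : ℝ) ≤
          Real.exp ((1 - η) * s) := by
        rw [Nat.card_Ioc]
        refine le_trans ?_ (Nat.floor_le (Real.exp_pos ((1 - η) * s)).le)
        exact_mod_cast Nat.sub_le _ _
      calc ((Finset.Ioc (g + 1) ⌊Real.exp ((1 - η) * s)⌋₊).card : ℝ) *
            Real.exp (-((1 - η / 4) / (1 - η) * s))
          ≤ Real.exp ((1 - η) * s) * Real.exp (-((1 - η / 4) / (1 - η) * s)) :=
            mul_le_mul_of_nonneg_right h8 (Real.exp_pos _).le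
        _ = Real.exp (-(κ * s)) := by
            rw [← Real.exp_add, hκ]
            congr 1
            ring
        _ ≤ Real.exp (-(g : ℝ) ^ (1 / 4 : ℝ)) := Real.exp_le_exp.2 (by linarith)
    · have hFg : F g = ∅ := by rw [hF]; dsimp only; rw [if_neg hc]
      rw [hFg, measure_empty]
      exact bot_le
  filter_upwards [ae_eventually_notMem (UPHM.tsum_ne_top hFm)] with ω h1
  filter_upwards [h1, eventually_ge_atTop 1] with g hgF hg1 hc p hp
  by_contra hcon
  rw [not_lt] at hcon
  apply hgF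
  have hFg : F g = ⋃ p ∈ Finset.Ioc (g + 1) ⌊Real.exp ((1 - η) * Real.sqrt g)⌋₊,
      EMPM.Ev B ∅ (W g p) := by
    rw [hF]; dsimp only; rw [if_pos hc]
  rw [hFg]
  obtain ⟨hpS, hpi⟩ := hp
  have hpg : 1 < p - g := (hpi g hg1 le_rfl).1
  have hp0 : (0 : ℝ) < p := by
    have : 0 < p := by omega
    exact_mod_cast this
  rw [Set.mem_iUnion₂]
  refine ⟨p, ?_, ?_⟩
  · rw [Finset.mem_Ioc]
    refine ⟨by omega, ?_⟩
    apply Nat.le_floor
    rw [← Real.log_le_iff_le_exp hp0]
    exact hcon
  · refine ⟨fun n hn => absurd hn (Finset.notMem_empty n), fun n hn => ?_⟩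
    rw [hW] at hn
    dsimp only at hn
    rw [Finset.mem_filter, Finset.mem_Ioc] at hn
    have h3 := (hpi (p - n) (by omega) (by omega)).2
    have h4 : p - (p - n) = n := by omega
    rwa [h4] at h3

end Pool.Agent.Lib.MP_926cc3_nt.T2
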