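import Pool.Agent.Lib.MP_926cc3_nt.T2.Up
import Pool.Agent.Lib.MP_926cc3_nt.T2.Low
import Pool.Agent.Lib.MP_926cc3_nt.TH.DTFB

/-!
# MP_926cc3_nt, the threshold: the law holds, fails at some scales, or fails at all scales
-/

set_option autoImplicit false

open Filter Topology MeasureTheory ProbabilityTheory

namespace Pool.Agent.Lib.MP_926cc3_nt.T2

open Pool.Agent.Lib.MP_926cc3_nt.RS Pool.Agent.Lib.MP_926cc3_nt.TH

universe u

/-- the elements of `S` whose `g` immediate predecessors are `> 1` and not in `S` -/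
def AG (S : Set ℕ) (g : ℕ) : Set ℕ :=
  {p : ℕ | p ∈ S ∧ ∀ i : ℕ, 1 ≤ i → i ≤ g → (1 < p - i ∧ p - i ∉ S)}

theorem freq_low {w : ℕ → ℕ} (hm : Monotone w)
    (hab : ¬ ∃ δ : ℝ, 0 < δ ∧ ∀ᶠ n : ℕ in atTop, Real.log (n : ℝ) ^ δ ≤ w n)
    {δ η : ℝ} (hδ : 0 < δ) (hη : 0 < η) (hη1 : η < 1) :
    ∃ᶠ g : ℕ in atTop, (w ⌊Real.exp ((1 - η) * Real.sqrt g)⌋₊ : ℝ) ≤ (g : ℝ) ^ δ := by
  have hlog : Tendsto (fun n : ℕ => Real.log (n : ℝ)) atTop atTop :=
    Real.tendsto_log_atTop.comp tendsto_natCast_atTop_atTop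
  push Not at hab
  have h1 := hab δ hδ
  rw [frequently_atTop]
  intro g1
  obtain ⟨n, hn, hn2, hn3, hn4⟩ := (h1.and_eventually ((hlog.eventually_ge_atTop (g1 : ℝ)).and
    ((hlog.eventually_ge_atTop 2).and (eventually_ge_atTop 1)))).exists
  have hnr : (1 : ℝ) ≤ n := by exact_mod_cast hn4
  set l : ℝ := Real.log n with hl
  have h1η : 0 < 1 - η := by linarith
  set g : ℕ := ⌊(l / (1 - η)) ^ 2⌋₊ with hg
  have hg1 : (g : ℝ) ≤ (l / (1 - η)) ^ 2 := Nat.floor_le (by positivity)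
  have hg2 : (l / (1 - η)) ^ 2 - 1 < g := Nat.sub_one_lt_floor _
  have hl1 : l ≤ l / (1 - η) := by
    rw [le_div_iff₀ h1η]
    nlinarith
  have hg3 : l ≤ g := by nlinarith
  refine ⟨g, ?_, ?_⟩
  · have : (g1 : ℝ) ≤ g := hn2.trans hg3
    exact_mod_cast this
  · have h3 : (1 - η) * Real.sqrt g ≤ l := by
      have h4 : Real.sqrt (g : ℝ) ≤ l / (1 - η) := by
        rw [Real.sqrt_le_left (by positivity)]
        exact hg1
      calc (1 - η) * Real.sqrt g ≤ (1 - η) * (l / (1 - η)) :=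
            mul_le_mul_of_nonneg_left h4 h1η.le
        _ = l := by field_simp
    have h4 : ⌊Real.exp ((1 - η) * Real.sqrt g)⌋₊ ≤ n := by
      have h5 : Real.exp ((1 - η) * Real.sqrt g) ≤ n := by
        calc Real.exp ((1 - η) * Real.sqrt g) ≤ Real.exp l := Real.exp_le_exp.2 h3
          _ = n := by rw [hl, Real.exp_log (by linarith)]
      exact Nat.floor_le_of_le h5
    have h5 : (w ⌊Real.exp ((1 - η) * Real.sqrt g)⌋₊ : ℝ) ≤ w n := by exact_mod_cast hm h4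
    refine h5.trans (hn.le.trans ?_)
    exact Real.rpow_le_rpow (by linarith) hg3 hδ.le

/-- The complete picture for one level. -/
theorem main (w : ℕ → ℕ) (hm : Monotone w) (h2 : ∀ n, 2 ≤ w n)
    (hw : (fun n => Real.log (w n)) =o[atTop] (fun n : ℕ => Real.log n)) :
    ∃ c : ℝ, 0 < c ∧ c < 1 ∧
      ∀ (Ω : Type u) [MeasurableSpace Ω] (μ : Measure Ω) [IsProbabilityMeasure μ]
      (B : ℕ → Set Ω), (∀ n, MeasurableSet (B n)) → iIndepSet B μ →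
      (∀ᶠ n in atTop, μ.real (B n) = cgDens w n) →
      ∀ᵐ ω ∂μ,
        (∀ᶠ g : ℕ in atTop, (AG (evSet B ω) g).Nonempty) ∧
        (∀ ε : ℝ, 0 < ε → ∀ᶠ g : ℕ in atTop,
          Real.log (firstElt (evSet B ω) g) ≤ (1 + ε) * Real.sqrt g) ∧
        (ShanksLaw (evSet B ω) ↔
          (fun n => Real.log (w n)) =o[atTop] (fun n : ℕ => Real.log (Real.log n))) ∧
        (¬ (fun n => Real.log (w n)) =o[atTop] (fun n : ℕ => Real.log (Real.log n)) →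
          ∃ᶠ g : ℕ in atTop, Real.log (firstElt (evSet B ω) g) ≤ c * Real.sqrt g) ∧
        ((∃ δ : ℝ, 0 < δ ∧ ∀ᶠ n : ℕ in atTop, Real.log (n : ℝ) ^ δ ≤ w n) →
          ∀ᶠ g : ℕ in atTop, Real.log (firstElt (evSet B ω) g) ≤ c * Real.sqrt g) ∧
        ((¬ ∃ δ : ℝ, 0 < δ ∧ ∀ᶠ n : ℕ in atTop, Real.log (n : ℝ) ^ δ ≤ w n) →
          ∀ c' : ℝ, c' < 1 → ∃ᶠ g : ℕ in atTop,
            c' * Real.sqrt g < Real.log (firstElt (evSet B ω) g)) := by
  have hz : Tendsto (fun n => cgDens w n) atTop (𝓝 0) := All.hCGZ w h2 hw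
  -- the constant for infinitely many `g`
  obtain ⟨c1, hc1, hc11, h1⟩ : ∃ c1 : ℝ, 0 < c1 ∧ c1 < 1 ∧
      ∀ (Ω : Type u) [MeasurableSpace Ω] (μ : Measure Ω) [IsProbabilityMeasure μ]
      (B : ℕ → Set Ω), (∀ n, MeasurableSet (B n)) → iIndepSet B μ →
      (∀ᶠ n in atTop, μ.real (B n) = cgDens w n) →
      ∀ᵐ ω ∂μ, (ShanksLaw (evSet B ω) ↔
          (fun n => Real.log (w n)) =o[atTop] (fun n : ℕ => Real.log (Real.log n))) ∧
        (¬ (fun n => Real.log (w n)) =o[atTop] (fun n : ℕ => Real.log (Real.log n)) →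
          ∃ᶠ g : ℕ in atTop, Real.log (firstElt (evSet B ω) g) ≤ c1 * Real.sqrt g) := by
    by_cases ho : (fun n => Real.log (w n)) =o[atTop] (fun n : ℕ => Real.log (Real.log n))
    · refine ⟨1 / 2, by norm_num, by norm_num, ?_⟩
      intro Ω m0 μ hμ B hB hI hd
      filter_upwards [Gra.shanks hB hI hm h2 ho hd] with ω h3
      exact ⟨⟨fun _ => ho, fun _ => h3⟩, fun h => absurd ho h⟩
    · obtain ⟨ε, hε, hr⟩ := PRBBM.runs specEMP w hz (All.hSEL w hm h2 hw ho)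
      have hs1 : 1 < Real.sqrt (1 + ε / 2) := by
        rw [Real.lt_sqrt (by norm_num)]
        linarith
      refine ⟨1 / Real.sqrt (1 + ε / 2), by positivity, ?_, ?_⟩
      · rw [div_lt_one (by linarith)]
        exact hs1
      intro Ω m0 μ hμ B hB hI hd
      have hup := UPHM.main All.hCGZ Ω m0 μ hμ B hB hI hm h2 hw hd
      filter_upwards [hup, hr Ω m0 μ hμ B hB hI hd] with ω h3 h4
      refine ⟨⟨fun hs => absurd hs (specDTF _ ε hε h4), fun hb => absurd hb ho⟩, fun _ => ?_⟩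
      exact (DTFBM.runs hε h3.2 h4).mono fun g hg => hg.2
  -- the constant for all large `g`
  obtain ⟨c2, hc2, hc21, h2'⟩ : ∃ c2 : ℝ, 0 < c2 ∧ c2 < 1 ∧
      ∀ (Ω : Type u) [MeasurableSpace Ω] (μ : Measure Ω) [IsProbabilityMeasure μ]
      (B : ℕ → Set Ω), (∀ n, MeasurableSet (B n)) → iIndepSet B μ →
      (∀ᶠ n in atTop, μ.real (B n) = cgDens w n) →
      ∀ᵐ ω ∂μ, (∃ δ : ℝ, 0 < δ ∧ ∀ᶠ n : ℕ in atTop, Real.log (n : ℝ) ^ δ ≤ w n) →
          ∀ᶠ g : ℕ in atTop, Real.log (firstElt (evSet B ω) g) ≤ c2 * Real.sqrt g := by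
    by_cases hab : ∃ δ : ℝ, 0 < δ ∧ ∀ᶠ n : ℕ in atTop, Real.log (n : ℝ) ^ δ ≤ w n
    · obtain ⟨δ, hδ, hd⟩ := hab
      obtain ⟨c, hc0, hc1, h⟩ := up.{u} hδ
      refine ⟨c, hc0, hc1, ?_⟩
      intro Ω m0 μ hμ B hB hI hdB
      filter_upwards [h w hm h2 hw hd Ω m0 μ hμ B hB hI hdB] with ω h3 _
      exact h3.mono fun g hg => hg.2
    · refine ⟨1 / 2, by norm_num, by norm_num, ?_⟩
      intro Ω m0 μ hμ B hB hI hd
      exact ae_of_all _ fun ω h => absurd h hab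
  refine ⟨max c1 c2, lt_max_of_lt_left hc1, max_lt hc11 hc21, ?_⟩
  intro Ω m0 μ hμ B hB hI hd
  have hcc1 : ∀ g : ℕ, c1 * Real.sqrt g ≤ max c1 c2 * Real.sqrt g := fun g =>
    mul_le_mul_of_nonneg_right (le_max_left _ _) (Real.sqrt_nonneg _)
  have hcc2 : ∀ g : ℕ, c2 * Real.sqrt g ≤ max c1 c2 * Real.sqrt g := fun g =>
    mul_le_mul_of_nonneg_right (le_max_right _ _) (Real.sqrt_nonneg _)
  -- the lower bounds
  have hlow : ∀ᵐ ω ∂μ, ∀ k : ℕ,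
      (¬ ∃ δ : ℝ, 0 < δ ∧ ∀ᶠ n : ℕ in atTop, Real.log (n : ℝ) ^ δ ≤ w n) →
      ∃ᶠ g : ℕ in atTop, ∀ p ∈ AG (evSet B ω) g,
        (1 - 1 / ((k : ℝ) + 2)) * Real.sqrt g < Real.log p := by
    rw [ae_all_iff]
    intro k
    have hk : (0 : ℝ) < 1 / ((k : ℝ) + 2) := by positivity
    have hk1 : 1 / ((k : ℝ) + 2) < 1 := by
      rw [div_lt_one (by positivity)]
      have : (0 : ℝ) ≤ k := Nat.cast_nonneg k
      linarith
    obtain ⟨δ, hδ, h⟩ := low.{u} hk hk1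
    filter_upwards [h w hm h2 Ω m0 μ hμ B hB hI hd] with ω hω hab
    refine ((freq_low hm hab hδ hk hk1).and_eventually hω).mono ?_
    rintro g ⟨hg1, hg2⟩
    exact hg2 hg1
  filter_upwards [h1 Ω μ B hB hI hd, h2' Ω μ B hB hI hd, hlow,
    UPHM.main All.hCGZ Ω m0 μ hμ B hB hI hm h2 hw hd] with ω h3 h4 h5 h6
  have hne : ∀ᶠ g : ℕ in atTop, (AG (evSet B ω) g).Nonempty :=
    (h6.1 1 one_pos).mono fun g hg => hg.1
  refine ⟨hne, fun ε hε => (h6.1 ε hε).mono fun g hg => hg.2, h3.1, fun h => (h3.2 h).mono fun g hg => hg.trans (hcc1 g),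
    fun h => (h4 h).mono fun g hg => hg.trans (hcc2 g), ?_⟩
  intro hab c' hc'
  obtain ⟨k, hk⟩ := exists_nat_one_div_lt (show 0 < 1 - c' by linarith)
  refine ((h5 k hab).and_eventually hne).mono ?_
  rintro g ⟨hg1, hg2⟩
  have h7 := hg1 _ (Nat.sInf_mem hg2)
  refine lt_of_le_of_lt ?_ h7
  apply mul_le_mul_of_nonneg_right _ (Real.sqrt_nonneg _)
  have h8 : 1 / ((k : ℝ) + 2) ≤ 1 / ((k : ℝ) + 1) :=
    one_div_le_one_div_of_le (by positivity) (by linarith)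
  linarith

end Pool.Agent.Lib.MP_926cc3_nt.T2
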