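import Pool.Agent.Lib.MP_926cc3_nt.T2.Sel

/-!
# MP_926cc3_nt, the threshold at every scale: the upper bound for all large `g`

If `w n ≥ (log n) ^ a0` for all large `n`, then almost surely `log p(g) ≤ c √g` for all large `g`,
with `c < 1` depending only on `a0`.
-/

set_option autoImplicit false

open Filter Topology MeasureTheory ProbabilityTheory

namespace Pool.Agent.Lib.MP_926cc3_nt.T2

open Pool.Agent.Lib.MP_926cc3_nt.RS Pool.Agent.Lib.MP_926cc3_nt.TH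

universe u

/-- the deterministic step: runs of length `(1 + ε) log² x` at every large `x` -/
theorem up_det {S : Set ℕ} (hU : ∀ᶠ x : ℕ in atTop, ∃ n ∈ S, 2 * x ≤ n ∧ n ≤ 3 * x)
    {ε : ℝ} (hε : 0 < ε) (hL : ∀ᶠ x : ℕ in atTop, ∃ a : ℕ, x ≤ a ∧ a ≤ 2 * x ∧
      ∀ n, a ≤ n → n < a + ⌊(1 + ε) * Real.log x ^ 2⌋₊ → n ∉ S) : ∀ᶠ g : ℕ in atTop,
    {p : ℕ | p ∈ S ∧ ∀ i : ℕ, 1 ≤ i → i ≤ g → (1 < p - i ∧ p - i ∉ S)}.Nonempty ∧
    Real.log (firstElt S g) ≤ 1 / Real.sqrt (1 + ε / 2) * Real.sqrt g := by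
  -- eventually in x
  have hev : ∀ᶠ x : ℕ in atTop, (∃ a : ℕ, x ≤ a ∧ a ≤ 2 * x ∧
      (∀ n, a ≤ n → n < a + ⌊(1 + ε) * Real.log x ^ 2⌋₊ → n ∉ S) ∧
      ∃ n ∈ S, a ≤ n ∧ n ≤ 3 * x) ∧ 2 ≤ x := by
    filter_upwards [hL, hU, eventually_ge_atTop 2] with x hx hx1 hx2
    refine ⟨?_, hx2⟩
    obtain ⟨a, h1, h2, h3⟩ := hx
    obtain ⟨n, hnS, hn1, hn2⟩ := hx1
    exact ⟨a, h1, h2, h3, n, hnS, by omega, hn2⟩
  obtain ⟨x0, hx0⟩ := eventually_atTop.1 hev
  -- choice of x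
  have hroot : Tendsto (fun g : ℕ => Real.sqrt (((g : ℝ) + 2) / (1 + ε))) atTop atTop := by
    apply Real.tendsto_sqrt_atTop.comp
    apply Tendsto.atTop_div_const (by linarith)
    exact tendsto_atTop_add_const_right _ _ tendsto_natCast_atTop_atTop
  have hexp : Tendsto (fun g : ℕ => Real.exp (Real.sqrt (((g : ℝ) + 2) / (1 + ε)))) atTop atTop :=
    Real.tendsto_exp_atTop.comp hroot
  have hroot2 : Tendsto (fun x : ℕ => Real.sqrt (x : ℝ)) atTop atTop :=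
    Real.tendsto_sqrt_atTop.comp tendsto_natCast_atTop_atTop
  set c : ℝ := 1 / Real.sqrt (1 + ε / 2) with hc
  set c1 : ℝ := 1 / Real.sqrt (1 + ε) with hc1
  have hs0 : 0 < Real.sqrt (1 + ε / 2) := Real.sqrt_pos.2 (by linarith)
  have hs1 : Real.sqrt (1 + ε / 2) < Real.sqrt (1 + ε) :=
    Real.sqrt_lt_sqrt (by linarith) (by linarith)
  have hcc : c1 < c := by
    rw [hc, hc1]
    exact one_div_lt_one_div_of_lt hs0 hs1
  have hc10 : 0 < c1 := by
    rw [hc1]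
    have : 0 < Real.sqrt (1 + ε) := lt_trans hs0 hs1
    positivity
  filter_upwards [hexp.eventually_ge_atTop (x0 : ℝ), hroot2.eventually_ge_atTop
    ((c1 * Real.sqrt 2 + Real.log 6) / (c - c1))] with g hg hg2
  set T := Real.sqrt (((g : ℝ) + 2) / (1 + ε)) with hT
  have hT0 : 0 ≤ T := Real.sqrt_nonneg _
  set x := ⌈Real.exp T⌉₊ with hx
  have hxx0 : x0 ≤ x := by
    have : (x0 : ℝ) ≤ x := hg.trans (Nat.le_ceil _)
    exact_mod_cast this
  obtain ⟨⟨a, h1, h2, h3, h4⟩, hx2⟩ := hx0 x hxx0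
  have hTx : T ≤ Real.log x := by
    rw [Real.le_log_iff_exp_le (by positivity)]
    exact Nat.le_ceil _
  have hg1 : g ≤ ⌊(1 + ε) * Real.log x ^ 2⌋₊ := by
    apply Nat.le_floor
    have h5 : T ^ 2 = ((g : ℝ) + 2) / (1 + ε) := by
      rw [hT, Real.sq_sqrt]
      apply div_nonneg (by positivity) (by linarith)
    have h6 : T ^ 2 ≤ Real.log x ^ 2 := by gcongr
    have h7 : (1 + ε) * T ^ 2 = g + 2 := by
      rw [h5]; field_simp
    nlinarith
  obtain ⟨p, hp, hp3⟩ := Det.nonempty_le (g := g) hx2 h1 h4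
    (fun n hn1 hn2 => h3 n hn1 (by omega))
  refine ⟨⟨p, hp⟩, ?_⟩
  have hfp : firstElt S g ≤ p := Nat.sInf_le hp
  have h8 : (firstElt S g : ℝ) ≤ 6 * Real.exp T := by
    have h9 : (x : ℝ) ≤ Real.exp T + 1 := (Nat.ceil_lt_add_one (Real.exp_pos T).le).le
    have h10 : (1 : ℝ) ≤ Real.exp T := Real.one_le_exp hT0
    have h11 : (firstElt S g : ℝ) ≤ 3 * x := by exact_mod_cast hfp.trans hp3
    linarith
  have h12 : Real.log (firstElt S g) ≤ T + Real.log 6 := by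
    rcases Nat.eq_zero_or_pos (firstElt S g) with h0 | h0
    · rw [h0]
      simp only [Nat.cast_zero, Real.log_zero]
      have : 0 ≤ Real.log 6 := Real.log_nonneg (by norm_num)
      linarith
    · calc Real.log (firstElt S g) ≤ Real.log (6 * Real.exp T) :=
          Real.log_le_log (by exact_mod_cast h0) h8
        _ = T + Real.log 6 := by
          rw [Real.log_mul (by norm_num) (Real.exp_pos T).ne', Real.log_exp]; ring
  refine h12.trans ?_
  have e : T = c1 * Real.sqrt (g + 2) := by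
    rw [hT, hc1, Real.sqrt_div (by positivity)]
    ring
  have h13 : Real.sqrt ((g : ℝ) + 2) ≤ Real.sqrt g + Real.sqrt 2 := by
    have h5 : (0 : ℝ) ≤ g := Nat.cast_nonneg g
    have h6 := Real.mul_self_sqrt h5
    have h7 := Real.mul_self_sqrt (show (0 : ℝ) ≤ 2 by norm_num)
    have h8 := Real.sqrt_nonneg (g : ℝ)
    have h9 := Real.sqrt_nonneg (2 : ℝ)
    rw [Real.sqrt_le_left (by positivity)]
    nlinarith [mul_nonneg h8 h9]
  rw [div_le_iff₀ (by linarith)] at hg2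
  have h14 : c1 * Real.sqrt ((g : ℝ) + 2) ≤ c1 * (Real.sqrt g + Real.sqrt 2) :=
    mul_le_mul_of_nonneg_left h13 hc10.le
  rw [e]
  nlinarith

/-- If `w n ≥ (log n) ^ a0` for all large `n`, then almost surely `log p(g) ≤ c √g` for all large
`g`; the constant `c < 1` depends only on `a0`. -/
theorem up {a0 : ℝ} (ha0 : 0 < a0) : ∃ c : ℝ, 0 < c ∧ c < 1 ∧
    ∀ w : ℕ → ℕ, Monotone w → (∀ n, 2 ≤ w n) →
    (fun n => Real.log (w n)) =o[atTop] (fun n : ℕ => Real.log n) →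
    (∀ᶠ n : ℕ in atTop, Real.log (n : ℝ) ^ a0 ≤ w n) →
    ∀ (Ω : Type u) (_ : MeasurableSpace Ω) (μ : Measure Ω) (_ : IsProbabilityMeasure μ)
      (B : ℕ → Set Ω), (∀ n, MeasurableSet (B n)) → iIndepSet B μ →
      (∀ᶠ n in atTop, μ.real (B n) = cgDens w n) →
      ∀ᵐ ω ∂μ, ∀ᶠ g : ℕ in atTop,
        {p : ℕ | p ∈ evSet B ω ∧ ∀ i : ℕ, 1 ≤ i → i ≤ g →
          (1 < p - i ∧ p - i ∉ evSet B ω)}.Nonempty ∧
        Real.log (firstElt (evSet B ω) g) ≤ c * Real.sqrt g := by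
  obtain ⟨ε, β, β', hε, hβ, hββ, h⟩ := selA (a0 := min a0 1) (lt_min ha0 one_pos)
    (min_le_right _ _)
  have hs1 : 1 < Real.sqrt (1 + ε / 2) := by
    rw [Real.lt_sqrt (by norm_num)]
    linarith
  refine ⟨1 / Real.sqrt (1 + ε / 2), by positivity, ?_, ?_⟩
  · rw [div_lt_one (by linarith)]
    exact hs1
  intro w hm h2 hw hab Ω m0 μ hμ B hB hI hdB
  have hlog : Tendsto (fun n : ℕ => Real.log (n : ℝ)) atTop atTop :=
    Real.tendsto_log_atTop.comp tendsto_natCast_atTop_atTop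
  have hwin := h w hm h2 hw
  filter_upwards [UPHM.runsH specEMP w (All.hCGZ w h2 hw) hβ hββ
      (fun x => ⌊(1 + ε) * Real.log x ^ 2⌋₊) Ω m0 μ hμ B hB hI hdB,
    UPHM.dense hm h2 hw Ω m0 μ hμ B hB hI hdB] with ω h3 h4
  refine up_det h4 hε ?_
  filter_upwards [h3, hwin, hab, hlog.eventually_ge_atTop 1] with x hx hx1 hx2 hx3
  apply hx
  apply hx1
  refine le_trans ?_ hx2
  exact Real.rpow_le_rpow_of_exponent_le hx3 (min_le_left _ _)

end Pool.Agent.Lib.MP_926cc3_nt.T2
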